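import Mathlib
import Pool.Agent.V7H53.SX.Count

/-!
# The `Σ`-Leopoldt conjecture over abelian totally real fields: which CM types

Let `k` be an imaginary quadratic field, `F` a totally real abelian field of degree `d`, `K = F k`, and
`χ = ψ|_K`, where `ψ` is a faithful character of `Gal(E/k)`, `E` not a CM field. The CM types of `K`
induced from `k` satisfy the `Σ`-Leopoldt statement for `χ`. If `d ≥ 3`, further CM types do: for every
divisor `q ≥ 3` of `d` there is such a CM type `S`, with all its translates by `Gal(K/k)`, for which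
the number of members of `S` over an embedding of `k` is not divisible by `q`. So for `d = 3` at least
five of the eight CM types satisfy the statement, and at least `d + 2` if `d` is a power of an odd
prime.

Proof. Let `B = Gal(K/k)`. For the characters `φ` of `B` let `r(φ)` be the ratio of the `p`-adic
logarithms of a generator of the `ψ φ`-part of the units (a line) under the two embeddings of `k`. A
subset `s` of `B` gives a CM type, and the regulator of this type vanishes if and only if the principal
minor on `s` of the convolution matrix `C` on `B` with eigenvalues `r(φ)` vanishes. If this happened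
for all `s` of order not divisible by `q`, the characteristic polynomial of `C` would be a polynomial
in `X^q`, hence `ζ r(φ)`, `ζ² r(φ)` would be eigenvalues too, `ζ` a primitive `q`-th root of unity:
three of the ratios would be proportional over the algebraic numbers, against the `p`-adic strong six
exponentials theorem.
-/

set_option autoImplicit false

namespace Pool.Agent.Results.MP_fc6b1e_nt.AbelianBaseTypesH53

open NumberField Pool.Agent.W289.SL

/-- Let `p` be a prime, `k` an imaginary quadratic field, `F` totally real of degree `d`, `K ⊇ F, k`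
with `[K : F] = 2` and `K/k` Galois with commutative group (that is, `K = F k` and `F/ℚ` is abelian),
`E/k` a finite Galois extension, `E` not a CM field, `ψ` an injective character of `Gal(E/k)`, `H` an
extension of `K` and `E`, Galois over `K`, and `χ(τ) = ψ(τ|_E)` on `Gal(H/K)`.

(1) The `Σ`-Leopoldt statement for `χ` holds for the CM types of `K` induced from `k`.

(2) For every divisor `q ≥ 3` of `d` there is a CM type `S` of `K`, such that for no embedding of `k`
the number of its extensions in `S` is divisible by `q`, and the statement holds for `S` and for all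
translates of `S` by `Gal(K/k)`.

(3) For every divisor `q ≥ 3` of `d` there is a divisor `g` of `d`, not divisible by `q`, such that the
statement holds for at least `d/g + 2` CM types of `K`. -/
theorem result (p : ℕ) [Fact p.Prime] (k E F K H : Type) [Field k] [NumberField k]
    [IsTotallyComplex k] (hk : Module.finrank ℚ k = 2)
    [Field E] [NumberField E] [Algebra k E] [IsGalois k E] (hE : ¬ IsCMField E)
    (ψ : (E ≃ₐ[k] E) →* ℂ_[p]ˣ) (hψ : Function.Injective ψ)
    [Field F] [NumberField F] [IsTotallyReal F]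
    [Field K] [NumberField K] [Algebra F K] [Algebra k K] (hFK : Module.finrank F K = 2)
    [IsGalois k K] (hcomm : ∀ a b : K ≃ₐ[k] K, a * b = b * a)
    [Field H] [NumberField H] [Algebra K H] [Algebra E H] [Algebra k H] [IsScalarTower k K H]
    [IsScalarTower k E H] [IsGalois K H] (χ : (H ≃ₐ[K] H) →* ℂ_[p]ˣ)
    (hχ : ∀ (τ : H ≃ₐ[K] H) (g : E ≃ₐ[k] E),
      (∀ e : E, τ (algebraMap E H e) = algebraMap E H (g e)) → χ τ = ψ g) :
    (∀ S : Set (K →+* ℂ_[p]), IsCMType p F K S →
      (∀ t ∈ S, ∀ t' ∈ S, t.comp (algebraMap k K) = t'.comp (algebraMap k K)) →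
      SigmaLeopoldt p K H S χ) ∧
    (∀ q : ℕ, 3 ≤ q → q ∣ Module.finrank ℚ F →
      ∃ S : Set (K →+* ℂ_[p]), IsCMType p F K S ∧
        (∀ ι : k →+* ℂ_[p], ¬ q ∣ Set.ncard {t | t ∈ S ∧ t.comp (algebraMap k K) = ι}) ∧
        ∀ b : K ≃ₐ[k] K, IsCMType p F K {t | t.comp (b : K →+* K) ∈ S} ∧
          SigmaLeopoldt p K H {t | t.comp (b : K →+* K) ∈ S} χ) ∧
    (∀ q : ℕ, 3 ≤ q → q ∣ Module.finrank ℚ F →
      ∃ g : ℕ, g ∣ Module.finrank ℚ F ∧ ¬ q ∣ g ∧
        Module.finrank ℚ F / g + 2 ≤
          Set.ncard {S : Set (K →+* ℂ_[p]) | IsCMType p F K S ∧ SigmaLeopoldt p K H S χ}) := by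
  obtain ⟨θ⟩ := Pool.Agent.W254.PA.exists_theta p
  have hpl := Pool.Agent.V7H53.SX.one_place k hk
  have : IsTotallyComplex K := isTotallyComplex_of_algebra k K
  have : FiniteDimensional k K := Module.Finite.of_restrictScalars_finite ℚ k K
  obtain ⟨cK, hcK1, hcKu, hcK⟩ := Pool.Agent.V7H53.SX.exists_cK F K hFK
  have hd : Module.finrank k K = Module.finrank ℚ F := by
    have h1 := Module.finrank_mul_finrank ℚ F K
    have h2 := Module.finrank_mul_finrank ℚ k K
    rw [hk] at h2
    rw [hFK] at h1
    omega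
  -- the big field
  obtain ⟨M, m₁, m₂, m₃, inc, hM⟩ := Pool.Agent.W332.SL6.exists_big p H
  obtain ⟨f₀⟩ : Nonempty (H →+* ℂ_[p]) := by
    have : Algebra.IsAlgebraic ℚ H := inferInstance
    exact ⟨(IsAlgClosed.lift : H →ₐ[ℚ] ℂ_[p])⟩
  obtain ⟨τ, hτ⟩ := hM f₀
  let aH : Algebra H M := τ.toAlgebra
  let aK : Algebra K M := (τ.comp (algebraMap K H)).toAlgebra
  let aE : Algebra E M := (τ.comp (algebraMap E H)).toAlgebra
  let ak : Algebra k M := (τ.comp (algebraMap k H)).toAlgebra
  have t₁ : IsScalarTower k E M := IsScalarTower.of_algebraMap_eq fun x => by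
    change τ (algebraMap k H x) = τ (algebraMap E H (algebraMap k E x))
    rw [← IsScalarTower.algebraMap_apply]
  have t₂ : IsScalarTower K H M := IsScalarTower.of_algebraMap_eq fun x => rfl
  have t₄ : IsScalarTower E H M := IsScalarTower.of_algebraMap_eq fun x => rfl
  have t₆ : IsScalarTower k K M := IsScalarTower.of_algebraMap_eq fun x => by
    change τ (algebraMap k H x) = τ (algebraMap K H (algebraMap k K x))
    rw [← IsScalarTower.algebraMap_apply]
  have hind : ∀ S : Set (K →+* ℂ_[p]), IsCMType p F K S →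
      (∀ t ∈ S, ∀ t' ∈ S, t.comp (algebraMap k K) = t'.comp (algebraMap k K)) →
      SigmaLeopoldt p K H S χ := fun S hS hi =>
    Pool.Agent.V7H53.SX.induced_types (M := M) hk hFK hcomm ψ χ hχ inc S hS hi
  have hother : ∀ q : ℕ, 3 ≤ q → q ∣ Module.finrank ℚ F →
      ∃ S : Set (K →+* ℂ_[p]), IsCMType p F K S ∧
        (∀ ι : k →+* ℂ_[p], ¬ q ∣ Set.ncard {t | t ∈ S ∧ t.comp (algebraMap k K) = ι}) ∧
        ∀ b : K ≃ₐ[k] K, IsCMType p F K {t | t.comp (b : K →+* K) ∈ S} ∧
          SigmaLeopoldt p K H {t | t.comp (b : K →+* K) ∈ S} χ := by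
    intro q hq3 hqd
    rw [← hd] at hqd
    obtain ⟨S, hS, h1, h2⟩ := Pool.Agent.V7H53.SX.other_types (M := M) hk hE hFK hcomm q hq3 hqd
      ψ hψ χ hχ inc
    exact ⟨S, hS, h1, fun b =>
      ⟨Pool.Agent.V7H53.SX.isCMType_translate cK hcKu hcK1 hcK hS b, h2 b⟩⟩
  refine ⟨hind, hother, fun q hq3 hqd => ?_⟩
  obtain ⟨S, hS, h1, h2⟩ := hother q hq3 hqd
  obtain ⟨g, hg1, hg2, hg3⟩ := Pool.Agent.V7H53.SX.count θ hpl cK hcKu hcK1 hcK
    (fun T => SigmaLeopoldt p K H T χ) hind q S hS h1 (fun b => (h2 b).2)
  have hcard : Nat.card (K ≃ₐ[k] K) = Module.finrank ℚ F := by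
    rw [IsGalois.card_aut_eq_finrank, hd]
  rw [hcard] at hg1 hg3
  exact ⟨g, hg1, hg2, hg3⟩

end Pool.Agent.Results.MP_fc6b1e_nt.AbelianBaseTypesH53
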