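import Mathlib
import Pool.Agent.V7H53.SY.Fin

/-!
# The `Σ`-Leopoldt conjecture over all CM extensions but few, for totally real fields of degree 2, 3

Let `F` be a totally real field of degree `d = 2` or `d = 3`, and let `ψ` be a character of
`Gal(E/F)` of mixed signature: it is odd at some real place and even at another one. For a CM
quadratic extension `K/F` let `χ = ψ|_K`. The `Σ`-Leopoldt map for `χ` is injective for all CM types
`S` of `K`, with at most one exceptional pair `{S, Sᶜ}`; and if `ψ` is odd at one place only, then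
there are no exceptions at all for all CM extensions `K/F` but at most `(d - 1) ^ 2`.

Proof. The `χ`-part of the units is the sum of the parts of `ψ` and `ψ η`, where `η` is the quadratic
character of `K/F`; say `ψ` is odd at one place, so that the dimensions are `d - 1` and `1`, with
generators which have algebraic coordinates. Let `ℓ_j` be the `p`-adic logarithm for an embedding
over `j : F → ℂ_p`. By the `p`-adic hyperplane theorem the map `(ℓ_j)_j` is injective on the `ψ`-part
(here `d ≤ 3` is used), so that its image is the kernel of one linear form `m`. If the statement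
fails for `K` and `S`, then `m` kills the vector `(ε_j ℓ_j(w))_j`, where `w` generates the `ψ η`-part
and the signs `ε_j` describe `S`. So `m` kills `d - 1` vectors for `ψ` and one vector for each
exceptional field, and these are linearly independent over the algebraic numbers, which is shown
with the complex conjugations. By the hyperplane theorem there are at most `d (d - 1)` such vectors
(and fewer if the coefficients of `m` are linearly dependent over the algebraic numbers; this
excludes all failures).
-/

set_option autoImplicit false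

namespace Pool.Agent.Results.MP_fc6b1e_nt.AllButFewExtensionsH53

open NumberField Pool.Agent.W289.SL

/-- The character `ψ` of `Gal(E/F)` is odd at the real place `v` of `F`: it is `-1` at the complex
conjugations for the embeddings of `E` above `v`. -/
def IsOddAt {p : ℕ} [Fact p.Prime] {F E : Type} [Field F] [Field E] [Algebra F E]
    (ψ : (E ≃ₐ[F] E) →* ℂ_[p]ˣ) (v : F →+* ℂ) : Prop :=
  ∀ (s : E →+* ℂ) (g : E ≃ₐ[F] E), s.comp (algebraMap F E) = v →
    (∀ y, s (g y) = (starRingEnd ℂ) (s y)) → ψ g = -1

/-- The character `ψ` of `Gal(E/F)` is even at the real place `v` of `F`: it is `1` at the complex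
conjugations for the embeddings of `E` above `v`. -/
def IsEvenAt {p : ℕ} [Fact p.Prime] {F E : Type} [Field F] [Field E] [Algebra F E]
    (ψ : (E ≃ₐ[F] E) →* ℂ_[p]ˣ) (v : F →+* ℂ) : Prop :=
  ∀ (s : E →+* ℂ) (g : E ≃ₐ[F] E), s.comp (algebraMap F E) = v →
    (∀ y, s (g y) = (starRingEnd ℂ) (s y)) → ψ g = 1

/-- The `Σ`-Leopoldt statement over `K ⊇ F` for the set `S` of embeddings and for the restriction of
the character `ψ` of `Gal(E/F)`: for all number fields `H ⊇ K, E` which are Galois over `K` (for
instance `H = E K`) and the character `χ` of `Gal(H/K)` with `χ(τ) = ψ(τ|_E)`. -/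
def HoldsFor (p : ℕ) [Fact p.Prime] {F E : Type} [Field F] [Field E] [Algebra F E]
    (ψ : (E ≃ₐ[F] E) →* ℂ_[p]ˣ) (K : Type) [Field K] [Algebra F K]
    (S : Set (K →+* ℂ_[p])) : Prop :=
  ∀ (H : Type) [Field H] [NumberField H] [Algebra K H] [Algebra E H] [Algebra F H]
    [IsScalarTower F K H] [IsScalarTower F E H] [IsGalois K H] (χ : (H ≃ₐ[K] H) →* ℂ_[p]ˣ),
    (∀ (τ : H ≃ₐ[K] H) (g : E ≃ₐ[F] E),
      (∀ e : E, τ (algebraMap E H e) = algebraMap E H (g e)) → χ τ = ψ g) →
    SigmaLeopoldt p K H S χ

/-- Let `p` be any prime, `F` a totally real number field of degree two or three, `E/F` a finite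
Galois extension and `ψ` a character of `Gal(E/F)` with values in `ℂ_pˣ`.

(1) Suppose that `ψ` is odd at some real place and even at some real place. Then for every totally
complex quadratic extension `K/F` the `Σ`-Leopoldt statement for the restriction of `ψ` to `K` holds
for all CM types of `K`, with the possible exception of one CM type and its complement.

(2) Suppose that `ψ` is odd at exactly one real place. Then for all totally complex quadratic
extensions `K/F`, with at most `([F : ℚ] - 1) ^ 2` exceptions up to isomorphism, it holds for all CM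
types of `K`. -/
theorem result (p : ℕ) [Fact p.Prime] (F E : Type) [Field F] [NumberField F] [IsTotallyReal F]
    (hF : Module.finrank ℚ F = 2 ∨ Module.finrank ℚ F = 3) [Field E] [NumberField E]
    [Algebra F E] [IsGalois F E] (ψ : (E ≃ₐ[F] E) →* ℂ_[p]ˣ) :
    ((∃ v, IsOddAt ψ v) → (∃ v, IsEvenAt ψ v) →
      ∀ (K : Type) [Field K] [NumberField K] [IsTotallyComplex K] [Algebra F K],
        Module.finrank F K = 2 → ∀ S S' : Set (K →+* ℂ_[p]),
          IsCMType p F K S → IsCMType p F K S' → S' ≠ S → S' ≠ Sᶜ →
          HoldsFor p ψ K S ∨ HoldsFor p ψ K S') ∧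
    ∀ v₀ : F →+* ℂ, IsOddAt ψ v₀ → (∀ v, v ≠ v₀ → IsEvenAt ψ v) →
      ∀ (K : Fin ((Module.finrank ℚ F - 1) ^ 2 + 1) → Type) [∀ i, Field (K i)]
        [∀ i, NumberField (K i)] [∀ i, IsTotallyComplex (K i)] [∀ i, Algebra F (K i)],
        (∀ i, Module.finrank F (K i) = 2) → (∀ i j, i ≠ j → IsEmpty (K i ≃ₐ[F] K j)) →
        ∃ i, ∀ S : Set (K i →+* ℂ_[p]), IsCMType p F (K i) S → HoldsFor p ψ (K i) S := by
  refine ⟨?_, ?_⟩
  · rintro ⟨v₁, h₁⟩ ⟨v₂, h₂⟩ K _ _ _ _ hFK S S' hS hS' hne hne'
    exact Pool.Agent.V7H53.SY.pair_final p F E hF ψ h₁ h₂ K hFK S S' hS hS' hne hne'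
  · intro v₀ h₀ h K _ _ _ _ hFK hiso
    exact Pool.Agent.V7H53.SY.count_final p F E hF ψ h₀ h rfl K hFK hiso

end Pool.Agent.Results.MP_fc6b1e_nt.AllButFewExtensionsH53
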