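import Mathlib
import Pool.Agent.V7H53.SX.Main

/-!
# The `Σ`-Leopoldt conjecture over all real quadratic fields but one

Let `k` be an imaginary quadratic field and `ψ` a faithful character of `Gal(E/k)`, where the Galois
extension `E/k` is not a CM field. For a real quadratic field `F` let `K = F k`, `χ = ψ|_K`. For all
`F` with at most one exception, the map of the `Σ`-Leopoldt conjecture is injective for `χ` and all
four CM types of `K`.

Proof. Over the imaginary quadratic field `k` the `ψ`-part of the units is a line; let `r(ψ)` be the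
ratio of the `p`-adic logarithms of a generator under the two embeddings of `k`. It is transcendental
by Brumer's theorem, since `E` is not a CM field. The `χ`-part of the units is the sum of the parts
of `ψ` and `ψ η`, where `η` is the quadratic character of `K/k`. For a CM type induced from `k`
Brumer's theorem gives injectivity; for the other two types injectivity fails only if
`r(ψ η) = ± r(ψ)`. If this happened for two different fields, then `r(ψ), r(ψ η₁), r(ψ η₂)` would be
equal up to sign, against the `p`-adic strong six exponentials theorem.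
-/

set_option autoImplicit false

namespace Pool.Agent.Results.MP_fc6b1e_nt.AllButOneFieldH53

open NumberField Pool.Agent.W289.SL

/-- The `Σ`-Leopoldt statement over `K = F k`, for the restriction of the character `ψ` of
`Gal(E/k)` and for all CM types: for all number fields `K ⊇ F, k` with `[K : F] = 2`, all number
fields `H ⊇ K, E` which are Galois over `K` (for instance `H = E K`), the character `χ` of
`Gal(H/K)` with `χ(τ) = ψ(τ|_E)`, and every CM type `S` of `K` with values in `ℂ_p`. -/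
def HoldsOver (p : ℕ) [Fact p.Prime] (k E : Type) [Field k] [Field E] [Algebra k E]
    (ψ : (E ≃ₐ[k] E) →* ℂ_[p]ˣ) (F : Type) [Field F] : Prop :=
  ∀ (K H : Type) [Field K] [NumberField K] [Algebra F K] [Algebra k K] [Field H] [NumberField H]
    [Algebra K H] [Algebra E H] [Algebra k H] [IsScalarTower k K H] [IsScalarTower k E H]
    [IsGalois K H], Module.finrank F K = 2 →
    ∀ χ : (H ≃ₐ[K] H) →* ℂ_[p]ˣ,
      (∀ (τ : H ≃ₐ[K] H) (g : E ≃ₐ[k] E),
        (∀ e : E, τ (algebraMap E H e) = algebraMap E H (g e)) → χ τ = ψ g) →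
      ∀ S : Set (K →+* ℂ_[p]), IsCMType p F K S → SigmaLeopoldt p K H S χ

/-- Let `p` be any prime, `k` an imaginary quadratic field, `E/k` a finite Galois extension which is
not a CM field, and `ψ` an injective character of `Gal(E/k)` with values in `ℂ_pˣ`. Of two
nonisomorphic real quadratic fields, at least one satisfies the `Σ`-Leopoldt statement over `K = F k`
for the restriction of `ψ` and all four CM types of `K`: all real quadratic fields `F` do, with at
most one exception up to isomorphism. -/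
theorem result (p : ℕ) [Fact p.Prime] (k E : Type) [Field k] [NumberField k] [IsTotallyComplex k]
    (hk : Module.finrank ℚ k = 2) [Field E] [NumberField E] [Algebra k E] [IsGalois k E]
    (hE : ¬ IsCMField E) (ψ : (E ≃ₐ[k] E) →* ℂ_[p]ˣ) (hψ : Function.Injective ψ)
    (F₁ F₂ : Type) [Field F₁] [NumberField F₁] [IsTotallyReal F₁]
    [Field F₂] [NumberField F₂] [IsTotallyReal F₂]
    (h₁ : Module.finrank ℚ F₁ = 2) (h₂ : Module.finrank ℚ F₂ = 2) (hne : IsEmpty (F₁ ≃+* F₂)) :
    HoldsOver p k E ψ F₁ ∨ HoldsOver p k E ψ F₂ := by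
  by_contra hcon
  rw [not_or] at hcon
  obtain ⟨hc₁, hc₂⟩ := hcon
  unfold HoldsOver at hc₁ hc₂
  push Not at hc₁ hc₂
  obtain ⟨K₁, H₁, i₁, i₂, i₃, i₄, i₅, i₆, i₇, i₈, i₉, i₁₀, i₁₁, i₁₂, hFK₁, χ₁, hχ₁, S₁, hS₁, hf₁⟩ :=
    hc₁
  obtain ⟨K₂, H₂, j₁, j₂, j₃, j₄, j₅, j₆, j₇, j₈, j₉, j₁₀, j₁₁, j₁₂, hFK₂, χ₂, hχ₂, S₂, hS₂, hf₂⟩ :=
    hc₂
  obtain ⟨M, m₁, m₂, m₃, inc, hM₁, hM₂⟩ := Pool.Agent.V7H53.SX.exists_big2 p H₁ H₂
  -- compatible embeddings
  obtain ⟨f₀⟩ : Nonempty (H₁ →+* ℂ_[p]) := by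
    have : Algebra.IsAlgebraic ℚ H₁ := inferInstance
    exact ⟨(IsAlgClosed.lift : H₁ →ₐ[ℚ] ℂ_[p])⟩
  have : Algebra.IsAlgebraic E H₂ := Algebra.IsAlgebraic.tower_top (K := ℚ) E
  obtain ⟨f₂, hf⟩ := Pool.Agent.W332.SL6.exists_ext (H := H₂) (f₀.comp (algebraMap E H₁))
  obtain ⟨τ₁, hτ₁⟩ := hM₁ f₀
  obtain ⟨τ₂, hτ₂⟩ := hM₂ f₂
  have hE12 : τ₂.comp (algebraMap E H₂) = τ₁.comp (algebraMap E H₁) := by
    ext e
    apply inc.injective
    have h3 := RingHom.congr_fun hf e
    have h4 := RingHom.congr_fun hτ₁ (algebraMap E H₁ e)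
    have h5 := RingHom.congr_fun hτ₂ (algebraMap E H₂ e)
    exact h5.trans (h3.trans h4.symm)
  letI aH₁ : Algebra H₁ M := τ₁.toAlgebra
  letI aH₂ : Algebra H₂ M := τ₂.toAlgebra
  letI aK₁ : Algebra K₁ M := (τ₁.comp (algebraMap K₁ H₁)).toAlgebra
  letI aK₂ : Algebra K₂ M := (τ₂.comp (algebraMap K₂ H₂)).toAlgebra
  letI aE : Algebra E M := (τ₁.comp (algebraMap E H₁)).toAlgebra
  letI ak : Algebra k M := ((τ₁.comp (algebraMap E H₁)).comp (algebraMap k E)).toAlgebra
  haveI t₁ : IsScalarTower k E M := IsScalarTower.of_algebraMap_eq fun x => rfl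
  haveI t₂ : IsScalarTower K₁ H₁ M := IsScalarTower.of_algebraMap_eq fun x => rfl
  haveI t₃ : IsScalarTower K₂ H₂ M := IsScalarTower.of_algebraMap_eq fun x => rfl
  haveI t₄ : IsScalarTower E H₁ M := IsScalarTower.of_algebraMap_eq fun x => rfl
  haveI t₅ : IsScalarTower E H₂ M := IsScalarTower.of_algebraMap_eq fun x =>
    (RingHom.congr_fun hE12 x).symm
  haveI t₆ : IsScalarTower k K₁ M := IsScalarTower.of_algebraMap_eq fun x => by
    change τ₁ (algebraMap E H₁ (algebraMap k E x)) = τ₁ (algebraMap K₁ H₁ (algebraMap k K₁ x))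
    rw [← IsScalarTower.algebraMap_apply, ← IsScalarTower.algebraMap_apply]
  haveI t₇ : IsScalarTower k K₂ M := IsScalarTower.of_algebraMap_eq fun x => by
    change τ₁ (algebraMap E H₁ (algebraMap k E x)) = τ₂ (algebraMap K₂ H₂ (algebraMap k K₂ x))
    have h3 := RingHom.congr_fun hE12 (algebraMap k E x)
    change τ₂ (algebraMap E H₂ (algebraMap k E x)) = τ₁ (algebraMap E H₁ (algebraMap k E x)) at h3
    rw [← h3, ← IsScalarTower.algebraMap_apply, ← IsScalarTower.algebraMap_apply]
  obtain ⟨e⟩ := Pool.Agent.V7H53.SX.two_fails (M := M) (F₁ := F₁) (F₂ := F₂) hk hE ψ hψ h₁ hFK₁ h₂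
    hFK₂ χ₁ hχ₁ χ₂ hχ₂ S₁ hS₁ S₂ hS₂ inc hf₁ hf₂
  exact hne.elim e

end Pool.Agent.Results.MP_fc6b1e_nt.AllButOneFieldH53
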