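import Mathlib
import Pool.Agent.V7H76.CU.Main2

set_option autoImplicit false

namespace Pool.Agent.Results.MP_fc6b1e_nt.CubicCharactersH76

open NumberField Pool.Agent.W289.SL

/-- Distinct integers `b_i` and an integer `a` of `k` such that each `b_i - a` is the cube of a
nonzero integer `β_i` of `k`. -/
structure CubeData {k : Type} [Field k] {d : ℕ} (b : Fin d → ℤ) (a : 𝓞 k) (β : Fin d → 𝓞 k) :
    Prop where
  inj : Function.Injective b
  cube : ∀ i, (b i : 𝓞 k) - a = β i ^ 3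
  ne : ∀ i, β i ≠ 0

/-- `F = ℚ(w)` where `∏ (w - b_i t³) = 1`, and `K` is a quadratic extension of `F` containing
`k`. -/
structure Model (k : Type) [Field k] {d : ℕ} (b : Fin d → ℤ) (t : ℤ) (F K : Type) [Field F]
    [NumberField F] [Field K] [Algebra F K] [Algebra k K] (w : F) : Prop where
  quad : Module.finrank F K = 2
  root : ∏ i, (w - (b i : F) * (t : F) ^ 3) = 1
  gen : IntermediateField.adjoin ℚ {w} = ⊤

/-- Let `p` be a prime, `k = ℚ(ω)` with `ω² + ω + 1 = 0`, and `d ≥ 1`. There are systems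
`(b, a, β)` with `∏ β_i³ ∉ ℤ`. For every system and all `t ∈ ℤ` outside a finite set: the fields
`F = ℚ(w)`, `∏ (w - b_i t³) = 1`, and `K = F k` exist; `F` is totally real of degree `d`, `K` is
totally complex, `α = w - a t³` is not a cube in `K`, and cubic extensions `H = K(∛α)` exist; every
such `H` is not Galois over `F` if `∏ β_i³ ∉ ℤ`, and the `Σ`-Leopoldt statement holds for every
cubic character of `H/K` and every CM type `Σ` of `K` with values in `ℂ_p`. -/
theorem result (p : ℕ) [Fact p.Prime] (k : Type) [Field k] [NumberField k]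
    (hk : Module.finrank ℚ k = 2) (ω : 𝓞 k) (hω : ω ^ 2 + ω + 1 = 0) (d : ℕ) (hd : 0 < d) :
    (∃ (b : Fin d → ℤ) (a : 𝓞 k) (β : Fin d → 𝓞 k), CubeData b a β ∧
      ∀ n : ℤ, ∏ i, β i ^ 3 ≠ (n : 𝓞 k)) ∧
    ∀ (b : Fin d → ℤ) (a : 𝓞 k) (β : Fin d → 𝓞 k), CubeData b a β →
      ∃ S₀ : Set ℤ, S₀.Finite ∧ ∀ t : ℤ, t ∉ S₀ →
        (∃ (F K : Type) (_ : Field F) (_ : NumberField F) (_ : Field K) (_ : NumberField K)
          (_ : Algebra F K) (_ : Algebra k K) (w : F), Model k b t F K w) ∧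
        ∀ (F K : Type) [Field F] [NumberField F] [Field K] [NumberField K] [Algebra F K]
          [Algebra k K] (w : F), Model k b t F K w →
          Module.finrank ℚ F = d ∧ IsTotallyReal F ∧ IsTotallyComplex K ∧
          (∀ x : K, x ^ 3 ≠ algebraMap F K w - algebraMap k K a * (t : K) ^ 3) ∧
          (∃ (H : Type) (_ : Field H) (_ : NumberField H) (_ : Algebra K H) (θ : H),
            Module.finrank K H = 3 ∧
            θ ^ 3 = algebraMap K H (algebraMap F K w - algebraMap k K a * (t : K) ^ 3)) ∧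
          ∀ (H : Type) [Field H] [NumberField H] [Algebra K H] (θ : H),
            Module.finrank K H = 3 →
            θ ^ 3 = algebraMap K H (algebraMap F K w - algebraMap k K a * (t : K) ^ 3) →
            ((∀ n : ℤ, ∏ i, β i ^ 3 ≠ (n : 𝓞 k)) →
              ∀ [Algebra F H] [IsScalarTower F K H], ¬ IsGalois F H) ∧
            ∀ S : Set (K →+* ℂ_[p]), IsCMType p F K S →
              ∀ χ : (H ≃ₐ[K] H) →* ℂ_[p]ˣ, χ ≠ 1 → SigmaLeopoldt p K H S χ := by
  have hkc : IsTotallyComplex k := Pool.Agent.V7H76.CU.totally_complex ω hω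
  refine ⟨?_, ?_⟩
  · obtain ⟨b, a, β, h1, h2, h3, h4⟩ := Pool.Agent.V7H76.CU.exists_data hω d hd
    exact ⟨b, a, β, ⟨h1, h2, h3⟩, h4⟩
  · intro b a β hs
    obtain ⟨S₀, hS₀, h⟩ :=
      Pool.Agent.V7H76.CU.main_thm p k hk ω hω d hd b hs.inj a β hs.cube hs.ne
    refine ⟨S₀, hS₀, ?_⟩
    intro t ht
    obtain ⟨ht3, ht'⟩ := h t ht
    refine ⟨?_, ?_⟩
    · have hgap : ∀ i j, i ≠ j → 2 ≤ |b i * t ^ 3 - b j * t ^ 3| := by
        intro i j hij
        have h1 : b i - b j ≠ 0 := sub_ne_zero.2 fun h => hij (hs.inj h)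
        have h2 := Int.one_le_abs h1
        have h3 : 2 ≤ |t ^ 3| := by
          rw [abs_pow]
          calc (2 : ℤ) ≤ |t| := by omega
            _ ≤ |t| ^ 3 := le_self_pow₀ (by omega) (by norm_num)
        rw [← sub_mul, abs_mul]
        nlinarith
      obtain ⟨F, K, i1, i2, i3, i4, i5, i6, w, h1, h2, h3⟩ :=
        Pool.Agent.Y789.SG.exists_fields (k := k) hk d hd (fun i => b i * t ^ 3) hgap
      refine ⟨F, K, i1, i2, i3, i4, i5, i6, w, ⟨h1, ?_, h3⟩⟩
      rw [← h2]
      refine Finset.prod_congr rfl fun i _ => ?_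
      push_cast
      ring
    · intro F K _ _ _ _ _ _ w hm
      obtain ⟨h1, h2, h3, h4, h5⟩ := ht' F K w hm.quad hm.root hm.gen
      exact ⟨h1, h2, h3, h4, Pool.Agent.V7H76.CU.exists_cubic _ h4, h5⟩

end Pool.Agent.Results.MP_fc6b1e_nt.CubicCharactersH76
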